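import Pool.Agent.H523.AH.Fin

set_option autoImplicit false
set_option linter.unusedSectionVars false

/-! # The Alternative Hypothesis fails for almost all prime moduli -/

namespace Pool.Agent.H523.AH

open Polynomial Finset
open Pool.Agent.H523.FF (Ir mem_Ir PL mem_PL card_PL two_le_card IrLE mem_IrLE)
open Pool.Agent.H523.CM (GG MSq Nav pw zs BadQ poly_le_exp)

open scoped Classical

theorem ah (hQ1 : S_Q1) (hQ2 : S_Q2) (hF1 : S_F1) : ∃ δ : ℝ, 0 < δ ∧ ∃ N : ℕ,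
    ∀ (F : Type) [Field F] [Fintype F] (d : ℕ), N ≤ d → ∃ E : Finset F[X],
      (E.card : ℝ) ≤ (Fintype.card F : ℝ) ^ ((d:ℝ) - δ * d) ∧
      ∀ Q : F[X], Q.Monic → Irreducible Q → Q.natDegree = d → Q ∉ E →
        ∀ [Fintype (MulChar (AdjoinRoot Q) ℂ)],
        (1 / 20) * ∑ χ ∈ (univ : Finset (MulChar (AdjoinRoot Q) ℂ)).erase 1, ((zs χ).card : ℝ) ≤
          ∑ χ ∈ (univ : Finset (MulChar (AdjoinRoot Q) ℂ)).erase 1,
            (offPairs (1 / 10000) 2000000 d (zs χ) : ℝ) := by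
  obtain ⟨δ₁, hδ₁, N₁, hN₁⟩ := CM.good_irr (1 / 1000) (by norm_num)
  set δ₃ : ℝ := min δ₁ (1 / 4) with hδ₃
  have hδ₃0 : 0 < δ₃ := lt_min hδ₁ (by norm_num)
  obtain ⟨N₃, hN₃⟩ := ZG.W_near (1 / 1000) δ₃ (by norm_num) hδ₃0 (min_le_right _ _)
  refine ⟨δ₁, hδ₁, N₁ + N₃ + 10 ^ 8, ?_⟩
  intro F _ _ d hd
  have hq := two_le_card (F := F)
  have hq0 : 0 < (Fintype.card F : ℝ) := by linarith
  refine ⟨(Ir F d).filter (fun Q => BadQ (1 / 1000) δ₁ Q), ?_, ?_⟩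
  · refine (hN₁ F d (by omega)).trans (le_of_eq ?_)
    rw [sub_eq_add_neg, Real.rpow_add hq0, Real.rpow_natCast]
  · intro Q hQ hirr hQd hQE _
    rw [mem_filter] at hQE
    have hQI : Q ∈ Ir F d := mem_Ir.mpr ⟨hQ, hirr, hQd⟩
    have hb1 : ¬ BadQ (1 / 1000) δ₃ Q := fun hb => hQE ⟨hQI, ZG.bad_mono (min_le_left _ _) hb⟩
    subst hQd
    exact one_good hQ1 hQ2 hF1 hQ hirr (by omega) (hN₃ F Q hQ hirr (by omega) hb1)

/-- a positive number of pairs gives one pair -/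
theorem exists_off {c R : ℝ} {d : ℕ} {Z : Multiset ℂ} (h : 0 < offPairs c R d Z) :
    ∃ u ∈ Z, ∃ v ∈ Z, Off c R d (Complex.arg (u / v)) := by
  by_contra hcon
  push Not at hcon
  have h0 : offPairs c R d Z = 0 := by
    unfold offPairs
    rw [Multiset.sum_eq_zero]
    intro x hx
    rw [Multiset.mem_map] at hx
    obtain ⟨u, hu, rfl⟩ := hx
    rw [Multiset.countP_eq_zero]
    exact fun v hv => hcon u hu v hv
  omega

end Pool.Agent.H523.AH
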