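import Pool.Agent.H523.AH.Stm

set_option autoImplicit false

/-! # The Alternative Hypothesis: the statements of the second part -/

namespace Pool.Agent.H523.AH

open Finset

/-- (Q3) from a pair of zeros to two consecutive zeros -/
def S_Q3 : Prop := ∀ (Z : Multiset ℂ) (d : ℕ) (c R ε : ℝ), 1 ≤ d → (∀ z ∈ Z, z ≠ 0) →
  0 < ε → ε ≤ 1 / 4 → 0 < c → 4 * ε * R < c → 2 * R < d →
  (∃ u ∈ Z, ∃ v ∈ Z, Off c R d (Complex.arg (u / v))) →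
  ∃ u v : ℂ, ({u, v} : Multiset ℂ) ≤ Z ∧ 0 ≤ Complex.arg (v / u) ∧
    (∀ w ∈ Z, ¬ (0 < Complex.arg (w / u) ∧ Complex.arg (w / u) < Complex.arg (v / u))) ∧
    d * Complex.arg (v / u) / (2 * Real.pi) ≤ R ∧
    ∀ k : ℕ, 1 ≤ k → ε ≤ |d * Complex.arg (v / u) / (2 * Real.pi) - k / 2|

/-- (F1) the numerical inequality -/
def S_F1 : Prop := ∀ (d m₀ h h₀ : ℕ) (W : ℕ → ℝ) (D : ℤ → ℝ) (P : ℝ), 10 ^ 8 ≤ d →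
  m₀ = 7 * d / 10 → h = d / 100 → h₀ = d / 1000000 →
  (∀ m, 0 ≤ W m) → W 0 ≤ (d:ℝ) ^ 2 →
  (∀ m : ℕ, 1 ≤ m → (m:ℝ) ≤ (4 / 3 - 1 / 1000) * d → |W m - min (m:ℝ) d| ≤ 1 / 1000 * d) →
  (∀ k, |D k| ≤ (h₀:ℝ) / h) →
  ∑ k ∈ Ioo (-(h:ℤ)) h, (1 - |(k:ℝ)| / h) *
      (W (2 * (d:ℤ) - m₀ - k).toNat - W ((m₀:ℤ) + k).toNat) ≤
    4 * Real.pi * (1 / 10000) * ∑ k ∈ Ioo (-(h:ℤ)) h, (1 - |(k:ℝ)| / h) * W k.natAbs +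
    8 / 3 * ∑ k ∈ Ioo (-((h + h₀ : ℕ) : ℤ)) ((h + h₀ : ℕ) : ℤ), D k * W k.natAbs +
    2 * h * P →
  (d:ℝ) / 20 ≤ P

end Pool.Agent.H523.AH
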