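import Pool.Agent.H523.AH.Pair
import Pool.Agent.H523.AH.Stm2
import Pool.Agent.H523.ZG.Fin

set_option autoImplicit false
set_option linter.unusedSectionVars false

/-! # The Alternative Hypothesis: one good prime modulus -/

namespace Pool.Agent.H523.AH

open Polynomial Finset
open Pool.Agent.H523.FF (Ir mem_Ir PL mem_PL card_PL two_le_card IrLE mem_IrLE)
open Pool.Agent.H523.CM (GG MSq Nav pw zs BadQ poly_le_exp)

open scoped Classical

/-- **one good modulus** -/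
theorem one_good (hQ1 : S_Q1) (hQ2 : S_Q2) (hF1 : S_F1) {F : Type} [Field F] [Fintype F] {Q : F[X]}
    (hQ : Q.Monic) (hirr : Irreducible Q) (hd : 10 ^ 8 ≤ Q.natDegree)
    [Fintype (MulChar (AdjoinRoot Q) ℂ)]
    (hnear : ∀ m : ℕ, 1 ≤ m → (m:ℝ) ≤ (4 / 3 - 1 / 1000) * Q.natDegree →
      |MSq Q m - min (m:ℝ) Q.natDegree| ≤ 1 / 1000 * Q.natDegree) :
    (1 / 20) * ∑ χ ∈ (univ : Finset (MulChar (AdjoinRoot Q) ℂ)).erase 1, ((zs χ).card : ℝ) ≤
      ∑ χ ∈ (univ : Finset (MulChar (AdjoinRoot Q) ℂ)).erase 1,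
        (offPairs (1 / 10000) 2000000 Q.natDegree (zs χ) : ℝ) := by
  have hq := two_le_card (F := F)
  set d := Q.natDegree with hdd
  have hd2 : 2 ≤ d := by omega
  have hdr : (10:ℝ) ^ 8 ≤ d := by exact_mod_cast hd
  set S := (univ : Finset (MulChar (AdjoinRoot Q) ℂ)).erase 1 with hS
  have hcard := CM.card_nonpr hQ hirr
  rw [← hS] at hcard
  have h4 := CM.q_pow_ge (F := F) (Q := Q) (by omega)
  rw [← hdd] at hcard h4
  set cnt : ℝ := (Fintype.card F : ℝ) ^ d - 2 with hcnt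
  have hcnt0 : 0 < cnt := by linarith
  have hsq : 0 < √(Fintype.card F : ℝ) := Real.sqrt_pos.mpr (by linarith)
  have hc0 : ((√(Fintype.card F : ℝ) : ℝ) : ℂ) ≠ 0 := by
    exact_mod_cast hsq.ne'
  -- the number of zeros
  have hzcard : ∀ χ ∈ S, ((zs χ).card : ℝ) ≤ d := by
    intro χ hχ
    have hχ1 : χ ≠ 1 := (mem_erase.mp hχ).1
    have h : (zs χ).card = d - 1 ∨ (zs χ).card = d - 2 := by
      by_cases he : CM.EvenC χ
      · exact Or.inr (CM.zs_even hQ hirr (by omega) hχ1 he).2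
      · exact Or.inl (CM.zs_odd hQ hirr (by omega) hχ1 he).2
    have h2 : (zs χ).card ≤ d := by omega
    exact_mod_cast h2
  set m₀ := 7 * d / 10 with hm₀
  set h := d / 100 with hh
  set h₀ := d / 1000000 with hh₀
  obtain ⟨D, hD1, hD2⟩ := hQ2 h h₀ (by omega) (by omega)
  have hR : (d:ℝ) ≤ 2000000 * h₀ := by
    have : d ≤ 2000000 * h₀ := by omega
    exact_mod_cast this
  set Z : MulChar (AdjoinRoot Q) ℂ → Multiset ℂ := fun χ =>
    (zs χ).map (fun r => (((√(Fintype.card F : ℝ) : ℝ) : ℂ) * r)⁻¹) with hZ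
  have hZsq : ∀ (χ : MulChar (AdjoinRoot Q) ℂ) (m : ℕ), sq (Z χ) m = ‖pw χ m‖ ^ 2 := by
    intro χ m
    unfold sq
    rw [hZ, Multiset.map_map]
    rfl
  have hone : ∀ χ ∈ S, ∑ k ∈ Ioo (-(h:ℤ)) h, (1 - |(k:ℝ)| / h) *
        (‖pw χ (2 * (d:ℤ) - m₀ - k).toNat‖ ^ 2 - ‖pw χ ((m₀:ℤ) + k).toNat‖ ^ 2) ≤
      4 * Real.pi * (1 / 10000) * ∑ k ∈ Ioo (-(h:ℤ)) h, (1 - |(k:ℝ)| / h) *
        ‖pw χ k.natAbs‖ ^ 2 +
      8 / 3 * ∑ k ∈ Ioo (-((h + h₀ : ℕ) : ℤ)) ((h + h₀ : ℕ) : ℤ), D k * ‖pw χ k.natAbs‖ ^ 2 +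
      2 * h * (offPairs (1 / 10000) 2000000 d (zs χ) : ℝ) := by
    intro χ hχ
    have h1 := pair_main hQ1 (Z χ)
      (by
        intro z hz
        rw [hZ, Multiset.mem_map] at hz
        obtain ⟨r, hr, rfl⟩ := hz
        have hr1 : ‖r‖ = (√(Fintype.card F : ℝ))⁻¹ := by
          unfold zs at hr
          exact (Multiset.mem_filter.mp hr).2
        rw [norm_inv, norm_mul, hr1, Complex.norm_real, Real.norm_eq_abs, abs_of_pos hsq,
          mul_inv_cancel₀ hsq.ne', inv_one])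
      (d := d) (m₀ := m₀) (h := h) (h₀ := h₀) (c := 1 / 10000) (R := 2000000)
      (by omega) (by omega) (by omega) (by norm_num) hR (by omega) (by omega) D hD2
    have h2 : offPairs (1 / 10000) 2000000 d (Z χ) = offPairs (1 / 10000) 2000000 d (zs χ) :=
      offPairs_inv _ _ _ _ _ hc0
    rw [h2] at h1
    simp only [hZsq] at h1
    exact h1
  have hV : ∀ m : ℕ, ∑ χ ∈ S, ‖pw χ m‖ ^ 2 = cnt * MSq Q m := by
    intro m
    unfold MSq
    rw [← hS, ← hdd, ← hcnt]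
    field_simp
  set P : ℝ := (∑ χ ∈ S, (offPairs (1 / 10000) 2000000 d (zs χ) : ℝ)) / cnt with hP
  have hPc : ∑ χ ∈ S, (offPairs (1 / 10000) 2000000 d (zs χ) : ℝ) = cnt * P := by
    rw [hP]
    field_simp
  have hlin : ∀ (T : Finset ℤ) (a : ℤ → ℝ) (f : ℤ → ℕ),
      ∑ χ ∈ S, ∑ k ∈ T, a k * ‖pw χ (f k)‖ ^ 2 = cnt * ∑ k ∈ T, a k * MSq Q (f k) := by
    intro T a f
    rw [sum_comm, mul_sum]
    refine sum_congr rfl (fun k _ => ?_)
    rw [← mul_sum, hV]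
    ring
  have hsum := sum_le_sum hone
  simp only [mul_sub, sum_sub_distrib, sum_add_distrib] at hsum
  rw [← mul_sum, ← mul_sum, ← mul_sum, hlin _ _ (fun k => (2 * (d:ℤ) - m₀ - k).toNat),
    hlin _ _ (fun k => ((m₀:ℤ) + k).toNat), hlin _ _ (fun k => k.natAbs),
    hlin _ _ (fun k => k.natAbs), hPc] at hsum
  have hmain : ∑ k ∈ Ioo (-(h:ℤ)) h, (1 - |(k:ℝ)| / h) *
        (MSq Q (2 * (d:ℤ) - m₀ - k).toNat - MSq Q ((m₀:ℤ) + k).toNat) ≤
      4 * Real.pi * (1 / 10000) * ∑ k ∈ Ioo (-(h:ℤ)) h, (1 - |(k:ℝ)| / h) * MSq Q k.natAbs +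
      8 / 3 * ∑ k ∈ Ioo (-((h + h₀ : ℕ) : ℤ)) ((h + h₀ : ℕ) : ℤ), D k * MSq Q k.natAbs +
      2 * h * P := by
    simp only [mul_sub, sum_sub_distrib]
    refine le_of_mul_le_mul_left ?_ hcnt0
    linarith
  have hW0 : ∀ m, 0 ≤ MSq Q m := by
    intro m
    unfold MSq
    apply div_nonneg (sum_nonneg (fun _ _ => sq_nonneg _))
    rw [← hdd, ← hcnt]
    exact hcnt0.le
  have hW00 : MSq Q 0 ≤ (d:ℝ) ^ 2 := by
    have h1 : cnt * MSq Q 0 ≤ cnt * (d:ℝ) ^ 2 := by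
      rw [← hV]
      have h2 : ∀ χ ∈ S, ‖pw χ 0‖ ^ 2 ≤ (d:ℝ) ^ 2 := by
        intro χ hχ
        have h3 : ‖pw χ 0‖ = ((zs χ).card : ℝ) := by
          rw [← Complex.norm_natCast]
          congr 1
          unfold pw
          simp
        rw [h3]
        exact pow_le_pow_left₀ (Nat.cast_nonneg _) (hzcard χ hχ) 2
      refine (sum_le_sum h2).trans (le_of_eq ?_)
      rw [sum_const, nsmul_eq_mul, hcard]
    exact le_of_mul_le_mul_left h1 hcnt0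
  have hfin := hF1 d m₀ h h₀ (fun m => MSq Q m) D P hd hm₀ hh hh₀ hW0 hW00 hnear hD1 hmain
  have h9 : ∑ χ ∈ S, ((zs χ).card : ℝ) ≤ cnt * d := by
    refine (sum_le_sum hzcard).trans (le_of_eq ?_)
    rw [sum_const, nsmul_eq_mul, hcard]
  rw [hPc]
  have h10 := mul_le_mul_of_nonneg_left hfin hcnt0.le
  linarith

end Pool.Agent.H523.AH
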