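import Pool.Agent.H523.AH.Stm
import Pool.Agent.H523.ZG.Pairs

set_option autoImplicit false

/-! # The Alternative Hypothesis: one `L`-function -/

namespace Pool.Agent.H523.AH

open Finset

open scoped Classical

/-- the number of the ordered pairs with a normalized distance in `Off` -/
noncomputable def offPairs (c R : ℝ) (d : ℕ) (Z : Multiset ℂ) : ℕ :=
  (Z.map (fun u => Z.countP (fun v => Off c R d (Complex.arg (u / v))))).sum

theorem Off_neg {c R : ℝ} {d : ℕ} {θ : ℝ} : Off c R d (-θ) ↔ Off c R d θ := by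
  unfold Off
  have e : d * -θ / (2 * Real.pi) = -(d * θ / (2 * Real.pi)) := by ring
  rw [e, abs_neg]
  refine and_congr_right (fun _ => ?_)
  constructor
  · intro h k
    have := h (-k)
    rw [← abs_neg]
    have e2 : -(d * θ / (2 * Real.pi) - (k:ℝ) / 2) = -(d * θ / (2 * Real.pi)) - ((-k : ℤ) : ℝ) / 2 := by
      push_cast
      ring
    rw [e2]
    exact this
  · intro h k
    have := h (-k)
    rw [← abs_neg]
    have e2 : -(-(d * θ / (2 * Real.pi)) - (k:ℝ) / 2) = d * θ / (2 * Real.pi) - ((-k : ℤ) : ℝ) / 2 := by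
      push_cast
      ring
    rw [e2]
    exact this

theorem Off_inv {c R : ℝ} {d : ℕ} (x : ℂ) :
    Off c R d (Complex.arg x⁻¹) ↔ Off c R d (Complex.arg x) := by
  rw [Complex.arg_inv]
  split_ifs with h
  · rw [h]
  · exact Off_neg

theorem offPairs_inv (c R : ℝ) (d : ℕ) (Z : Multiset ℂ) (w : ℂ) (hw : w ≠ 0) :
    offPairs c R d (Z.map (fun r => (w * r)⁻¹)) = offPairs c R d Z := by
  unfold offPairs
  rw [Multiset.map_map]
  congr 1
  refine Multiset.map_congr rfl (fun u _ => ?_)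
  simp only [Function.comp]
  rw [Multiset.countP_map, Multiset.countP_eq_card_filter]
  congr 1
  refine Multiset.filter_congr (fun v _ => ?_)
  have h1 : (w * u)⁻¹ / (w * v)⁻¹ = (u / v)⁻¹ := by
    rw [mul_inv, mul_inv, inv_div, mul_div_mul_left _ _ (inv_ne_zero hw)]
    rw [div_inv_eq_mul, mul_comm, ← div_eq_mul_inv]
  rw [h1, Off_inv]

/-- the square of the norm of a power sum -/
noncomputable def sq (Z : Multiset ℂ) (m : ℕ) : ℝ := ‖(Z.map (fun z => z ^ m)).sum‖ ^ 2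

theorem pair_main (hQ1 : S_Q1) (Z : Multiset ℂ) (hZ : ∀ z ∈ Z, ‖z‖ = 1) {d m₀ h h₀ : ℕ} {c R : ℝ}
    (hd : 1 ≤ d) (hh : 1 ≤ h) (hh₀ : 1 ≤ h₀) (hc : 0 < c) (hR : (d:ℝ) ≤ R * h₀)
    (hm1 : h ≤ m₀) (hm2 : m₀ + h ≤ d) (D : ℤ → ℝ)
    (hD : ∀ θ : ℝ, fej h θ - fej h θ * fej h₀ θ / h₀ =
      ∑ k ∈ Ioo (-((h + h₀ : ℕ) : ℤ)) ((h + h₀ : ℕ) : ℤ), D k * Real.cos (k * θ)) :
    ∑ k ∈ Ioo (-(h:ℤ)) h, (1 - |(k:ℝ)| / h) *
        (sq Z (2 * (d:ℤ) - m₀ - k).toNat - sq Z ((m₀:ℤ) + k).toNat) ≤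
      4 * Real.pi * c * ∑ k ∈ Ioo (-(h:ℤ)) h, (1 - |(k:ℝ)| / h) * sq Z k.natAbs +
      8 / 3 * ∑ k ∈ Ioo (-((h + h₀ : ℕ) : ℤ)) ((h + h₀ : ℕ) : ℤ), D k * sq Z k.natAbs +
      2 * h * (offPairs c R d Z : ℝ) := by
  obtain ⟨l, rfl⟩ : ∃ l : List ℂ, (l : Multiset ℂ) = Z := Quot.exists_rep Z
  have hval : (l : Multiset ℂ) = (Finset.univ : Finset (Fin l.length)).val.map l.get := by
    rw [Fin.univ_val_map, List.ofFn_get]
  set z : Fin l.length → ℂ := l.get with hzdef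
  have hz : ∀ j, ‖z j‖ = 1 := fun j => hZ _ (by
    rw [Multiset.mem_coe]
    exact List.get_mem l j)
  have hsq : ∀ m : ℕ, sq (l : Multiset ℂ) m =
      ∑ j, ∑ k, Real.cos (m * Complex.arg (z j / z k)) := by
    intro m
    have h1 : ((l : Multiset ℂ).map (fun z => z ^ m)).sum = ∑ j, z j ^ m := by
      rw [hval, Multiset.map_map]
      rfl
    unfold sq
    rw [h1, Pool.Agent.H271.ZG.sq_pow_sum z hz m]
  have hoff : (offPairs c R d (l : Multiset ℂ) : ℝ) =
      ∑ j, ∑ k, (if Off c R d (Complex.arg (z j / z k)) then (1:ℝ) else 0) := by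
    have h1 : ∀ u : ℂ, (l : Multiset ℂ).countP (fun v => Off c R d (Complex.arg (u / v))) =
        ∑ k, (if Off c R d (Complex.arg (u / z k)) then 1 else 0) := by
      intro u
      rw [hval, Multiset.countP_map, ← Finset.filter_val, Finset.card_val, Finset.card_filter]
    have h2 : offPairs c R d (l : Multiset ℂ) =
        ∑ j, ∑ k, (if Off c R d (Complex.arg (z j / z k)) then 1 else 0) := by
      unfold offPairs
      simp only [h1]
      conv_lhs => rw [hval]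
      rw [Multiset.map_map]
      rfl
    rw [h2]
    push_cast
    rfl
  -- a cosine polynomial summed over the pairs
  have hcos : ∀ (S : Finset ℤ) (a : ℤ → ℝ), ∑ k ∈ S, a k * sq (l : Multiset ℂ) k.natAbs =
      ∑ i, ∑ j, ∑ k ∈ S, a k * Real.cos (k * Complex.arg (z i / z j)) := by
    intro S a
    have h1 : ∀ k ∈ S, a k * sq (l : Multiset ℂ) k.natAbs =
        ∑ i, ∑ j, a k * Real.cos (k * Complex.arg (z i / z j)) := by
      intro k _
      rw [hsq, mul_sum]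
      refine sum_congr rfl (fun i _ => ?_)
      rw [mul_sum]
      refine sum_congr rfl (fun j _ => ?_)
      congr 1
      rw [Nat.cast_natAbs, Int.cast_abs]
      rcases abs_choice (k:ℝ) with h | h
      · rw [h]
      · rw [h, neg_mul, Real.cos_neg]
    rw [sum_congr rfl h1, sum_comm]
    exact sum_congr rfl (fun i _ => sum_comm)
  have hleft : ∑ k ∈ Ioo (-(h:ℤ)) h, (1 - |(k:ℝ)| / h) *
        (sq (l : Multiset ℂ) (2 * (d:ℤ) - m₀ - k).toNat - sq (l : Multiset ℂ) ((m₀:ℤ) + k).toNat) =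
      ∑ i, ∑ j, tst d m₀ h (Complex.arg (z i / z j)) := by
    have h1 : ∀ k ∈ Ioo (-(h:ℤ)) h, (1 - |(k:ℝ)| / h) *
        (sq (l : Multiset ℂ) (2 * (d:ℤ) - m₀ - k).toNat - sq (l : Multiset ℂ) ((m₀:ℤ) + k).toNat) =
        ∑ i, ∑ j, (1 - |(k:ℝ)| / h) * (Real.cos ((2 * d - m₀ - k) * Complex.arg (z i / z j)) -
          Real.cos ((m₀ + k) * Complex.arg (z i / z j))) := by
      intro k hk
      rw [mem_Ioo] at hk
      rw [hsq, hsq, ← sum_sub_distrib, mul_sum]
      refine sum_congr rfl (fun i _ => ?_)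
      rw [← sum_sub_distrib, mul_sum]
      refine sum_congr rfl (fun j _ => ?_)
      have e1 : (((2 * (d:ℤ) - m₀ - k).toNat : ℕ) : ℝ) = 2 * d - m₀ - k := by
        have : (((2 * (d:ℤ) - m₀ - k).toNat : ℕ) : ℤ) = 2 * (d:ℤ) - m₀ - k :=
          Int.toNat_of_nonneg (by omega)
        have h2 : ((((2 * (d:ℤ) - m₀ - k).toNat : ℕ) : ℤ) : ℝ) = ((2 * (d:ℤ) - m₀ - k : ℤ) : ℝ) := by
          rw [this]
        push_cast at h2
        exact h2
      have e2 : ((((m₀:ℤ) + k).toNat : ℕ) : ℝ) = m₀ + k := by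
        have : ((((m₀:ℤ) + k).toNat : ℕ) : ℤ) = (m₀:ℤ) + k := Int.toNat_of_nonneg (by omega)
        have h2 : (((((m₀:ℤ) + k).toNat : ℕ) : ℤ) : ℝ) = (((m₀:ℤ) + k : ℤ) : ℝ) := by
          rw [this]
        push_cast at h2
        exact h2
      rw [e1, e2]
    rw [sum_congr rfl h1, sum_comm]
    unfold tst
    exact sum_congr rfl (fun i _ => sum_comm)
  rw [hleft, hcos, hcos, hoff, mul_sum, mul_sum, mul_sum, ← sum_add_distrib, ← sum_add_distrib]
  refine sum_le_sum (fun i _ => ?_)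
  rw [mul_sum, mul_sum, mul_sum, ← sum_add_distrib, ← sum_add_distrib]
  refine sum_le_sum (fun j _ => ?_)
  have h1 := hQ1 d m₀ h h₀ c R hd hh hh₀ hc hR (Complex.arg (z i / z j)) (Complex.abs_arg_le_pi _)
  rw [hD] at h1
  exact h1

end Pool.Agent.H523.AH
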