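import Pool.Agent.H523.AH.Pair
import Pool.Agent.H523.AH.Stm2

set_option autoImplicit false
set_option linter.unusedSectionVars false

/-! # The Alternative Hypothesis: a positive proportion of the spacings -/

namespace Pool.Agent.H523.AH

open Polynomial Finset
open Pool.Agent.H341R2.Sharp (Mon mem_Mon)
open Pool.Agent.H523.FF (Ir mem_Ir PL mem_PL card_PL two_le_card IrLE mem_IrLE)
open Pool.Agent.H523.CM (lam pw zs tot)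

open scoped Classical

/-- the number of the points near `u` -/
noncomputable def near (R : ℝ) (d : ℕ) (Z : Multiset ℂ) (u : ℂ) : ℕ :=
  Z.countP (fun v => |d * Complex.arg (u / v) / (2 * Real.pi)| ≤ R)

/-- the sum of their squares -/
noncomputable def nsq (R : ℝ) (d : ℕ) (Z : Multiset ℂ) : ℝ :=
  (Z.map (fun u => (near R d Z u : ℝ) ^ 2)).sum

/-- the point `u` is followed by a spacing away from the positive half integers -/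
def Bad (ε R : ℝ) (d : ℕ) (Z : Multiset ℂ) (u : ℂ) : Prop :=
  ∃ v : ℂ, ({u, v} : Multiset ℂ) ≤ Z ∧ 0 ≤ Complex.arg (v / u) ∧
    (∀ w ∈ Z, ¬ (0 < Complex.arg (w / u) ∧ Complex.arg (w / u) < Complex.arg (v / u))) ∧
    d * Complex.arg (v / u) / (2 * Real.pi) ≤ R ∧
    ∀ k : ℕ, 1 ≤ k → ε ≤ |d * Complex.arg (v / u) / (2 * Real.pi) - k / 2|

/-- (Q4) a bad point near every off pair -/
def S_Q4 : Prop := ∀ (Z : Multiset ℂ) (d : ℕ) (c R ε : ℝ), 1 ≤ d → (∀ z ∈ Z, z ≠ 0) →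
  0 < ε → ε ≤ 1 / 4 → 0 < c → 4 * ε * R < c → 2 * R < d →
  ∀ u ∈ Z, (∃ v ∈ Z, Off c R d (Complex.arg (u / v))) →
  ∃ w ∈ Z, Bad ε R d Z w ∧ |d * Complex.arg (w / u) / (2 * Real.pi)| ≤ R

/-- (C1) the number of the bad points -/
def S_C1 : Prop := S_Q4 → ∀ (Z : Multiset ℂ) (d : ℕ) (c R ε : ℝ), 1 ≤ d → (∀ z ∈ Z, z ≠ 0) →
  0 < ε → ε ≤ 1 / 4 → 0 < c → 4 * ε * R < c → 2 * R < d → ∀ t s : ℝ, 0 < t → 0 < s →
  (offPairs c R d Z : ℝ) ≤ t * s * (Z.countP (fun w => Bad ε R d Z w) : ℝ) +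
    (t / (4 * s) + 1 / (4 * t)) * nsq R d Z

/-- (X) the sum of the squares and the power sums -/
def S_X : Prop := ∃ C : ℝ, 0 ≤ C ∧ ∀ (d M : ℕ) (R : ℝ), 1 ≤ M → 0 ≤ R → 2 * (R + 1) * M ≤ d →
  ∃ b : ℕ → ℕ → ℂ, (∀ j k, ‖b j k‖ ≤ 1) ∧ ∀ Z : Multiset ℂ, (∀ z ∈ Z, ‖z‖ = 1) →
    nsq R d Z ≤ C * ∑ j ∈ range d, (((Z.card : ℝ) / M) ^ 4 +
      ‖∑ k ∈ Ico 1 M, b j k * (Z.map (fun z => z ^ k)).sum‖ ^ 4 / (M:ℝ) ^ 4 + 1)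

/-- the square of the von Mangoldt function -/
noncomputable def LL {F : Type} [Field F] [Fintype F] (j : ℕ) (n : F[X]) : ℝ :=
  ∑ a ∈ Ico 1 j, ∑ f ∈ Mon F a, ∑ g ∈ Mon F (j - a), if f * g = n then lam a f * lam (j - a) g else 0

/-- (N4) its mean square -/
def S_N4 : Prop := ∃ C : ℝ, 0 ≤ C ∧ ∀ (F : Type) [Field F] [Fintype F] (j : ℕ),
  ∑ n ∈ Mon F j, (LL j n) ^ 2 ≤ C * (j:ℝ) ^ 3 * (Fintype.card F : ℝ) ^ j

/-- (P4) Parseval -/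
def S_P4 : Prop := ∀ (F : Type) [Field F] [Fintype F] (Q : F[X])
  [Fintype (MulChar (AdjoinRoot Q) ℂ)], Q.Monic → ∀ (T : Finset F[X]) (c : F[X] → ℂ),
  (∀ f ∈ T, f.natDegree < Q.natDegree) →
  ∑ χ : MulChar (AdjoinRoot Q) ℂ, ‖∑ f ∈ T, c f * χ (AdjoinRoot.mk Q f)‖ ^ 2 ≤
    (tot Q : ℝ) * ∑ f ∈ T, ‖c f‖ ^ 2

/-- (M4) the fourth moment -/
def S_M4 : Prop := ∃ C : ℝ, 0 ≤ C ∧ ∀ (F : Type) [Field F] [Fintype F] (Q : F[X])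
  [Fintype (MulChar (AdjoinRoot Q) ℂ)], Q.Monic → Irreducible Q → 2 ≤ Q.natDegree →
  ∀ M : ℕ, 2 * M ≤ Q.natDegree → ∀ b : ℕ → ℂ, (∀ k, ‖b k‖ ≤ 1) →
  ∑ χ ∈ (univ : Finset (MulChar (AdjoinRoot Q) ℂ)).erase 1,
    ‖∑ k ∈ Ico 1 M, b k * pw χ k‖ ^ 4 ≤ C * (Fintype.card F : ℝ) ^ Q.natDegree * (M:ℝ) ^ 4

end Pool.Agent.H523.AH
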