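import Pool.Agent.H523.AH.All
import Pool.Agent.H523.AH.Stm3

set_option autoImplicit false
set_option linter.unusedSectionVars false

/-! # A positive proportion of the spacings -/

namespace Pool.Agent.H523.AH

open Polynomial Finset
open Pool.Agent.H523.FF (Ir mem_Ir PL mem_PL card_PL two_le_card IrLE mem_IrLE)
open Pool.Agent.H523.CM (GG MSq Nav pw zs BadQ poly_le_exp)

open scoped Classical

theorem nsq_inv (R : ℝ) (d : ℕ) (Z : Multiset ℂ) (w : ℂ) (hw : w ≠ 0) :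
    nsq R d (Z.map (fun r => (w * r)⁻¹)) = nsq R d Z := by
  unfold nsq near
  rw [Multiset.map_map]
  congr 1
  refine Multiset.map_congr rfl (fun u _ => ?_)
  simp only [Function.comp]
  rw [Multiset.countP_map, Multiset.countP_eq_card_filter]
  have h0 : Z.filter (fun v => |d * Complex.arg ((w * u)⁻¹ / (w * v)⁻¹) / (2 * Real.pi)| ≤ R) =
      Z.filter (fun v => |d * Complex.arg (u / v) / (2 * Real.pi)| ≤ R) := by
    refine Multiset.filter_congr (fun v _ => ?_)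
    have h1 : (w * u)⁻¹ / (w * v)⁻¹ = (u / v)⁻¹ := by
      rw [mul_inv, mul_inv, inv_div, mul_div_mul_left _ _ (inv_ne_zero hw)]
      rw [div_inv_eq_mul, mul_comm, ← div_eq_mul_inv]
    rw [h1, abs_div, abs_mul, Complex.abs_arg_inv, ← abs_mul, ← abs_div]
  rw [h0]

theorem nsq_nonneg (R : ℝ) (d : ℕ) (Z : Multiset ℂ) : 0 ≤ nsq R d Z := by
  unfold nsq
  apply Multiset.sum_nonneg
  intro x hx
  rw [Multiset.mem_map] at hx
  obtain ⟨u, -, rfl⟩ := hx
  exact sq_nonneg _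

/-- the mean of the squares of the local numbers of the zeros -/
theorem nsq_mean (hX : S_X) (hM4 : S_M4) : ∃ K : ℝ, 0 < K ∧ ∀ (F : Type) [Field F] [Fintype F]
    (Q : F[X]) [Fintype (MulChar (AdjoinRoot Q) ℂ)], Q.Monic → Irreducible Q →
    10 ^ 8 ≤ Q.natDegree →
    ∑ χ ∈ (univ : Finset (MulChar (AdjoinRoot Q) ℂ)).erase 1, nsq 2000000 Q.natDegree (zs χ) ≤
      K * ∑ χ ∈ (univ : Finset (MulChar (AdjoinRoot Q) ℂ)).erase 1, ((zs χ).card : ℝ) := by
  obtain ⟨cX, hCX0, hCX⟩ := hX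
  obtain ⟨cM, hCM0, hCM⟩ := hM4
  refine ⟨2 * (cX * (8000004 ^ 4 + cM + 1)) + 1, by positivity, ?_⟩
  intro F _ _ Q _ hQ hirr hd
  have hq := two_le_card (F := F)
  set d := Q.natDegree with hdd
  have hdr : (10:ℝ) ^ 8 ≤ d := by exact_mod_cast hd
  set S := (univ : Finset (MulChar (AdjoinRoot Q) ℂ)).erase 1 with hS
  have hcard := CM.card_nonpr hQ hirr
  rw [← hS, ← hdd] at hcard
  have hsq : 0 < √(Fintype.card F : ℝ) := Real.sqrt_pos.mpr (by linarith)
  have hc0 : ((√(Fintype.card F : ℝ) : ℝ) : ℂ) ≠ 0 := by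
    exact_mod_cast hsq.ne'
  have hzcard : ∀ χ ∈ S, (d:ℝ) - 2 ≤ ((zs χ).card : ℝ) ∧ ((zs χ).card : ℝ) ≤ d := by
    intro χ hχ
    have hχ1 : χ ≠ 1 := (mem_erase.mp hχ).1
    have h : (zs χ).card = d - 1 ∨ (zs χ).card = d - 2 := by
      by_cases he : CM.EvenC χ
      · exact Or.inr (CM.zs_even hQ hirr (by omega) hχ1 he).2
      · exact Or.inl (CM.zs_odd hQ hirr (by omega) hχ1 he).2
    rcases h with h | h
    · rw [h, Nat.cast_sub (by omega)]
      push_cast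
      constructor <;> linarith
    · rw [h, Nat.cast_sub (by omega)]
      push_cast
      constructor <;> linarith
  set M := d / 4000002 with hM
  have hM1 : 1 ≤ M := by omega
  have hMd : 4000002 * M ≤ d := by omega
  have hMd2 : d ≤ 8000004 * M := by omega
  have hMr : (1:ℝ) ≤ M := by exact_mod_cast hM1
  have hMr2 : (d:ℝ) ≤ 8000004 * M := by exact_mod_cast hMd2
  obtain ⟨b, hb1, hb2⟩ := hCX d M 2000000 hM1 (by norm_num) (by
    have : (4000002:ℝ) * M ≤ d := by exact_mod_cast hMd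
    linarith)
  have hone : ∀ χ ∈ S, nsq 2000000 d (zs χ) ≤
      cX * ∑ j ∈ range d, ((8000004:ℝ) ^ 4 +
        ‖∑ k ∈ Ico 1 M, b j k * pw χ k‖ ^ 4 / (M:ℝ) ^ 4 + 1) := by
    intro χ hχ
    have h1 := hb2 ((zs χ).map (fun r => (((√(Fintype.card F : ℝ) : ℝ) : ℂ) * r)⁻¹))
      (by
        intro z hz
        rw [Multiset.mem_map] at hz
        obtain ⟨r, hr, rfl⟩ := hz
        have hr1 : ‖r‖ = (√(Fintype.card F : ℝ))⁻¹ := by
          unfold zs at hr
          exact (Multiset.mem_filter.mp hr).2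
        rw [norm_inv, norm_mul, hr1, Complex.norm_real, Real.norm_eq_abs, abs_of_pos hsq,
          mul_inv_cancel₀ hsq.ne', inv_one])
    rw [nsq_inv _ _ _ _ hc0, Multiset.card_map] at h1
    have h2 : ∀ m : ℕ, (((zs χ).map (fun r => (((√(Fintype.card F : ℝ) : ℝ) : ℂ) * r)⁻¹)).map
        (fun z => z ^ m)).sum = pw χ m := by
      intro m
      rw [Multiset.map_map]
      rfl
    simp only [h2] at h1
    refine h1.trans (mul_le_mul_of_nonneg_left (sum_le_sum (fun j _ => ?_)) hCX0)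
    have h3 : ((zs χ).card : ℝ) / M ≤ 8000004 := by
      rw [div_le_iff₀ (by linarith)]
      exact ((hzcard χ hχ).2).trans hMr2
    have h4 : (((zs χ).card : ℝ) / M) ^ 4 ≤ (8000004:ℝ) ^ 4 :=
      pow_le_pow_left₀ (by positivity) h3 4
    linarith
  have hq0 : 0 < (Fintype.card F : ℝ) ^ d := by positivity
  have hM4' : ∀ j ∈ range d, ∑ χ ∈ S, ‖∑ k ∈ Ico 1 M, b j k * pw χ k‖ ^ 4 / (M:ℝ) ^ 4 ≤
      cM * (Fintype.card F : ℝ) ^ d := by
    intro j _
    rw [← sum_div, div_le_iff₀ (by positivity)]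
    exact hCM F Q hQ hirr (by omega) M (by omega) (b j) (hb1 j)
  have h5 : ∑ χ ∈ S, nsq 2000000 d (zs χ) ≤
      cX * (d * ((8000004 ^ 4 + cM + 1) * (Fintype.card F : ℝ) ^ d)) := by
    refine (sum_le_sum hone).trans ?_
    rw [← mul_sum, sum_comm]
    refine mul_le_mul_of_nonneg_left ?_ hCX0
    have h6 : ∀ j ∈ range d, ∑ χ ∈ S, ((8000004:ℝ) ^ 4 +
        ‖∑ k ∈ Ico 1 M, b j k * pw χ k‖ ^ 4 / (M:ℝ) ^ 4 + 1) ≤
        (8000004 ^ 4 + cM + 1) * (Fintype.card F : ℝ) ^ d := by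
      intro j hj
      rw [sum_add_distrib, sum_add_distrib, sum_const, sum_const, nsmul_eq_mul, nsmul_eq_mul, hcard]
      have := hM4' j hj
      nlinarith
    refine (sum_le_sum h6).trans (le_of_eq ?_)
    rw [sum_const, card_range, nsmul_eq_mul]
  have h7 : ((Fintype.card F : ℝ) ^ d - 2) * ((d:ℝ) - 2) ≤ ∑ χ ∈ S, ((zs χ).card : ℝ) := by
    have h3 := sum_le_sum (fun χ hχ => (hzcard χ hχ).1)
    rw [sum_const, nsmul_eq_mul, hcard] at h3
    exact h3
  have h8 : (1024:ℝ) ≤ (Fintype.card F : ℝ) ^ d := by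
    calc (1024:ℝ) = 2 ^ 10 := by norm_num
      _ ≤ 2 ^ d := pow_le_pow_right₀ (by norm_num) (by omega)
      _ ≤ _ := pow_le_pow_left₀ (by norm_num) hq _
  set q' : ℝ := (Fintype.card F : ℝ) ^ d with hq'
  have h9 : (q' * 0.99) * (d * 0.99) ≤ (q' - 2) * ((d:ℝ) - 2) :=
    mul_le_mul (by linarith) (by linarith) (by positivity) (by linarith)
  have h10 : (d:ℝ) * q' ≤ 2 * ∑ χ ∈ S, ((zs χ).card : ℝ) := by
    have h11 : 0 ≤ q' * (d:ℝ) := by positivity
    linarith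
  have h11 : 0 ≤ ∑ χ ∈ S, ((zs χ).card : ℝ) := sum_nonneg (fun _ _ => Nat.cast_nonneg _)
  have h12 : 0 ≤ cX * (8000004 ^ 4 + cM + 1) := by positivity
  calc ∑ χ ∈ S, nsq 2000000 d (zs χ) ≤ cX * (d * ((8000004 ^ 4 + cM + 1) * q')) := h5
    _ = (cX * (8000004 ^ 4 + cM + 1)) * (d * q') := by ring
    _ ≤ (cX * (8000004 ^ 4 + cM + 1)) * (2 * ∑ χ ∈ S, ((zs χ).card : ℝ)) :=
        mul_le_mul_of_nonneg_left h10 h12
    _ ≤ _ := by linarith

/-- **a positive proportion of the spacings** -/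
theorem prop (hQ1 : S_Q1) (hQ2 : S_Q2) (hF1 : S_F1) (hQ4 : S_Q4) (hC1 : S_C1) (hX : S_X)
    (hM4 : S_M4) : ∃ κ : ℝ, 0 < κ ∧ ∃ δ : ℝ, 0 < δ ∧ ∃ N : ℕ,
    ∀ (F : Type) [Field F] [Fintype F] (d : ℕ), N ≤ d → ∃ E : Finset F[X],
      (E.card : ℝ) ≤ (Fintype.card F : ℝ) ^ ((d:ℝ) - δ * d) ∧
      ∀ Q : F[X], Q.Monic → Irreducible Q → Q.natDegree = d → Q ∉ E →
        ∀ [Fintype (MulChar (AdjoinRoot Q) ℂ)],
        κ * ∑ χ ∈ (univ : Finset (MulChar (AdjoinRoot Q) ℂ)).erase 1, ((zs χ).card : ℝ) ≤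
          ∑ χ ∈ (univ : Finset (MulChar (AdjoinRoot Q) ℂ)).erase 1,
            ((zs χ).countP (fun w => Bad (1 / 10 ^ 11) 2000000 d (zs χ) w) : ℝ) ∧
        (1 / 20) * ∑ χ ∈ (univ : Finset (MulChar (AdjoinRoot Q) ℂ)).erase 1, ((zs χ).card : ℝ) ≤
          ∑ χ ∈ (univ : Finset (MulChar (AdjoinRoot Q) ℂ)).erase 1,
            (offPairs (1 / 10000) 2000000 d (zs χ) : ℝ) := by
  obtain ⟨K, hK, hnsq⟩ := nsq_mean hX hM4
  obtain ⟨δ, hδ, N, hN⟩ := ah hQ1 hQ2 hF1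
  refine ⟨1 / (320000 * K ^ 3), by positivity, δ, hδ, max N (10 ^ 8), ?_⟩
  intro F _ _ d hd
  have hq := two_le_card (F := F)
  obtain ⟨E, hE, hgood⟩ := hN F d (le_trans (le_max_left _ _) hd)
  have hd8 : 10 ^ 8 ≤ d := le_trans (le_max_right _ _) hd
  have hdr : (10:ℝ) ^ 8 ≤ d := by exact_mod_cast hd8
  refine ⟨E, hE, ?_⟩
  intro Q hQ hirr hQd hQE _
  have h1 := hgood Q hQ hirr hQd hQE
  refine ⟨?_, h1⟩
  have h2 := hnsq F Q hQ hirr (by omega)
  rw [hQd] at h2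
  set S := (univ : Finset (MulChar (AdjoinRoot Q) ℂ)).erase 1 with hS
  set A := ∑ χ ∈ S, ((zs χ).card : ℝ) with hA
  set B := ∑ χ ∈ S, ((zs χ).countP (fun w => Bad (1 / 10 ^ 11) 2000000 d (zs χ) w) : ℝ) with hB
  have hone : ∀ χ ∈ S, (offPairs (1 / 10000) 2000000 d (zs χ) : ℝ) ≤
      (20 * K) * (400 * K ^ 2) *
        ((zs χ).countP (fun w => Bad (1 / 10 ^ 11) 2000000 d (zs χ) w) : ℝ) +
      ((20 * K) / (4 * (400 * K ^ 2)) + 1 / (4 * (20 * K))) * nsq 2000000 d (zs χ) := by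
    intro χ hχ
    have hne : ∀ z ∈ zs χ, z ≠ 0 := by
      intro z hz h0
      unfold zs at hz
      have h1 := (Multiset.mem_filter.mp hz).2
      rw [h0, norm_zero] at h1
      have h2 : 0 < (√(Fintype.card F : ℝ))⁻¹ := inv_pos.mpr (Real.sqrt_pos.mpr (by linarith))
      linarith
    exact hC1 hQ4 (zs χ) d (1 / 10000) 2000000 (1 / 10 ^ 11) (by omega) hne (by norm_num)
      (by norm_num) (by norm_num) (by norm_num) (by linarith) (20 * K) (400 * K ^ 2)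
      (by positivity) (by positivity)
  have h3 := sum_le_sum hone
  rw [sum_add_distrib, ← mul_sum, ← mul_sum, ← hB] at h3
  have h4 : (20 * K) / (4 * (400 * K ^ 2)) + 1 / (4 * (20 * K)) = 1 / (40 * K) := by
    have e1 : (20 * K) / (4 * (400 * K ^ 2)) = 1 / (80 * K) := by
      rw [div_eq_div_iff (by positivity) (by positivity)]
      ring
    have e2 : 1 / (4 * (20 * K)) = 1 / (80 * K) := by
      rw [div_eq_div_iff (by positivity) (by positivity)]
      ring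
    have e3 : 1 / (40 * K) = 1 / (80 * K) + 1 / (80 * K) := by
      rw [← add_div, div_eq_div_iff (by positivity) (by positivity)]
      ring
    rw [e1, e2, e3]
  rw [h4] at h3
  have h5 : 1 / (40 * K) * ∑ χ ∈ S, nsq 2000000 d (zs χ) ≤ 1 / (40 * K) * (K * A) :=
    mul_le_mul_of_nonneg_left h2 (by positivity)
  have h6 : 1 / (40 * K) * (K * A) = A / 40 := by
    field_simp
  have h7 : A / 40 ≤ 8000 * K ^ 3 * B := by
    have h8 : (20 * K) * (400 * K ^ 2) * B = 8000 * K ^ 3 * B := by ring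
    linarith
  have h9 : 1 / (320000 * K ^ 3) * A = (A / 40) / (8000 * K ^ 3) := by
    rw [div_mul_eq_mul_div, one_mul, div_div, div_eq_div_iff (by positivity) (by positivity)]
    ring
  rw [h9, div_le_iff₀ (by positivity)]
  linarith

end Pool.Agent.H523.AH
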