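import Pool.Agent.H523.CM70

set_option autoImplicit false

/-! # The Alternative Hypothesis: the statements -/

namespace Pool.Agent.H523.AH

open Finset

/-- Fejér's kernel -/
noncomputable def fej (h : ℕ) (θ : ℝ) : ℝ :=
  ∑ k ∈ Ioo (-(h:ℤ)) h, (1 - |(k:ℝ)| / h) * Real.cos (k * θ)

/-- the test function: triangular weights around `2 d - m₀` minus the same around `m₀` -/
noncomputable def tst (d m₀ h : ℕ) (θ : ℝ) : ℝ :=
  ∑ k ∈ Ioo (-(h:ℤ)) h, (1 - |(k:ℝ)| / h) *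
    (Real.cos ((2 * d - m₀ - k) * θ) - Real.cos ((m₀ + k) * θ))

/-- the normalized distance is at most `R` and at distance at least `c` from all half integers -/
def Off (c R : ℝ) (d : ℕ) (θ : ℝ) : Prop :=
  |d * θ / (2 * Real.pi)| ≤ R ∧ ∀ k : ℤ, c ≤ |d * θ / (2 * Real.pi) - k / 2|

open scoped Classical in
/-- (Q1) the pointwise bound of the test function -/
def S_Q1 : Prop := ∀ (d m₀ h h₀ : ℕ) (c R : ℝ), 1 ≤ d → 1 ≤ h → 1 ≤ h₀ → 0 < c →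
  (d:ℝ) ≤ R * h₀ → ∀ θ : ℝ, |θ| ≤ Real.pi →
  tst d m₀ h θ ≤ 4 * Real.pi * c * fej h θ + 8 / 3 * (fej h θ - fej h θ * fej h₀ θ / h₀) +
    2 * h * (if Off c R d θ then 1 else 0)

/-- (Q2) the coefficients of the difference -/
def S_Q2 : Prop := ∀ h h₀ : ℕ, 1 ≤ h₀ → h₀ ≤ h → ∃ D : ℤ → ℝ, (∀ k, |D k| ≤ (h₀:ℝ) / h) ∧
  ∀ θ : ℝ, fej h θ - fej h θ * fej h₀ θ / h₀ =
    ∑ k ∈ Ioo (-((h + h₀ : ℕ) : ℤ)) ((h + h₀ : ℕ) : ℤ), D k * Real.cos (k * θ)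

end Pool.Agent.H523.AH
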